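import Mathlib

/-!
# `ϑ̄` of generalized Mycielskians is determined by `ϑ̄` of the graph

For every `r ≥ 1` there is a function `g_r` with `ϑ̄(M_r(G)) = g_r(ϑ̄(G))` for all finite graphs `G`.

Proof idea.  Let `B` be an optimal dual matrix of `H` (positive semidefinite, trace one, supported on
the diagonal and the edges, with entry sum `t = ϑ̄(H)`).  Then `t·diag(B) - B` is positive
semidefinite and kills the all ones vector.  From a feasible vector system of `M_r(H)` the two
matrices `B/t` and `(t·diag(B) - B)/(t(t-1))` produce two vector systems `p_0..p_r`, `q_0..q_r` with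
`q_r = 0`, `⟨p_i,p_j⟩ = ⟨q_i,q_j⟩` whenever `ij` is an edge of `P_r` and
`‖p_i‖² + (t-1)‖q_i‖² ≤ s`.  With an optimal primal solution `y_v` of `G` the vectors
`p_i ⊕ (y_v ⊗ q_i)` form a feasible system for `M_r(G)` with the same value.
-/

set_option autoImplicit false

namespace Pool.Agent.Results.MP_8a180b_co.DeterminedByTheta

open Finset

/-! ## The objects of the problem -/

/-- A dual orthonormal representation of `G` in `ℝ^d`: unit vectors, orthogonal along the edges of
`G`. -/
def IsDualRep {V : Type} (G : SimpleGraph V) {d : ℕ} (u : V → EuclideanSpace ℝ (Fin d)) : Prop :=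
  (∀ i, ‖u i‖ = 1) ∧ ∀ i j, G.Adj i j → inner ℝ (u i) (u j) = 0

/-- The values `max_i 1 / ⟨c, u_i⟩²` over all dual orthonormal representations `u` of `G` (in any
dimension) and all unit vectors `c` with `⟨c, u_i⟩ ≠ 0` for all `i` (otherwise the value is
infinite). -/
def thetaValues {V : Type} (G : SimpleGraph V) : Set ℝ :=
  {s | ∃ (d : ℕ) (u : V → EuclideanSpace ℝ (Fin d)) (c : EuclideanSpace ℝ (Fin d)),
    IsDualRep G u ∧ ‖c‖ = 1 ∧ (∀ i, inner ℝ c (u i) ≠ 0) ∧
    IsGreatest (Set.range fun i => 1 / (inner ℝ c (u i)) ^ 2) s}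

/-- The Lovász theta number of the complement of `G`. -/
noncomputable def thetaBar {V : Type} (G : SimpleGraph V) : ℝ := sInf (thetaValues G)

/-- The vertex of `M_r(G)` given by the vertex `(v, i)` of `G × P_r`: the vertices `(v, r)` are all
identified to one vertex, called `none`. -/
def proj {V : Type} {r : ℕ} (v : V) (i : Fin (r + 1)) : Option (V × Fin r) :=
  if h : (i : ℕ) < r then some (v, ⟨i, h⟩) else none

/-- Adjacency in the graph `P_r` with vertices `0, …, r`, edges `{i, i+1}` and a loop at `0`. -/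
def PathAdj {r : ℕ} (i j : Fin (r + 1)) : Prop :=
  (i : ℕ) + 1 = j ∨ (j : ℕ) + 1 = i ∨ ((i : ℕ) = 0 ∧ (j : ℕ) = 0)

/-- The generalized Mycielskian `M_r(G)`: the categorical product `G × P_r` with all the vertices
`(v, r)` identified. -/
def genMyc {V : Type} (r : ℕ) (G : SimpleGraph V) : SimpleGraph (Option (V × Fin r)) :=
  SimpleGraph.fromRel fun a b =>
    ∃ (v w : V) (i j : Fin (r + 1)), proj v i = a ∧ proj w j = b ∧ G.Adj v w ∧ PathAdj i j

/-! ## Proof -/

/-- symmetric positive semidefinite matrices -/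
def PSD {V : Type} [Fintype V] (Y : V → V → ℝ) : Prop :=
  (∀ v w, Y v w = Y w v) ∧ ∀ y : V → ℝ, 0 ≤ ∑ v, ∑ w, y v * y w * Y v w

lemma PSD.gram {V : Type} [Fintype V] {Y : V → V → ℝ} (h : PSD Y) :
    ∃ (n : ℕ) (C : Fin n → V → ℝ), ∀ v w, Y v w = ∑ k, C k v * C k w := by
  classical
  have hY : (Matrix.of Y).PosSemidef := by
    apply Matrix.PosSemidef.of_dotProduct_mulVec_nonneg
    · ext i j
      simp [Matrix.conjTranspose_apply, h.1 j i]
    · intro x
      have h2 := h.2 x
      have e : star x ⬝ᵥ (Matrix.of Y).mulVec x = ∑ v, ∑ w, x v * x w * Y v w := by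
        simp only [dotProduct, Matrix.mulVec, Matrix.of_apply, Pi.star_apply, star_trivial]
        refine Finset.sum_congr rfl fun v _ => ?_
        rw [Finset.mul_sum]
        exact Finset.sum_congr rfl fun w _ => by ring
      rw [e]
      exact h2
  obtain ⟨m, A, hA⟩ := Matrix.posSemidef_iff_eq_sum_vecMulVec.mp hY
  refine ⟨m, A, fun v w => ?_⟩
  have := congrFun (congrFun hA v) w
  simp only [Matrix.of_apply, Matrix.sum_apply, Matrix.vecMulVec_apply,
    star_trivial] at this
  rw [this]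

lemma PSD.of_gram {V κ : Type} [Fintype V] [Fintype κ] (C : V → κ → ℝ) :
    PSD (fun v w => ∑ k, C v k * C w k) := by
  refine ⟨fun v w => Finset.sum_congr rfl fun k _ => mul_comm _ _, fun y => ?_⟩
  have e : ∑ v, ∑ w, y v * y w * ∑ k, C v k * C w k = ∑ k, (∑ v, y v * C v k) ^ 2 := by
    simp only [Finset.mul_sum, sq, Finset.sum_mul]
    calc ∑ v, ∑ w, ∑ k, y v * y w * (C v k * C w k)
        = ∑ v, ∑ k, ∑ w, y v * y w * (C v k * C w k) :=
          Finset.sum_congr rfl fun v _ => Finset.sum_comm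
      _ = ∑ k, ∑ v, ∑ w, y v * y w * (C v k * C w k) := Finset.sum_comm
      _ = _ := Finset.sum_congr rfl fun k _ => by
          rw [Finset.sum_comm]
          exact Finset.sum_congr rfl fun v _ => Finset.sum_congr rfl fun w _ => by ring
  rw [e]
  positivity

/-- combination of vectors, inner products -/
lemma gram_sum {V κ ι : Type} [Fintype V] [Fintype κ] [Fintype ι] (C : ι → V → ℝ)
    (x y : V → κ → ℝ) :
    ∑ p : ι × κ, (∑ v, C p.1 v * x v p.2) * (∑ w, C p.1 w * y w p.2)
      = ∑ v, ∑ w, (∑ k, C k v * C k w) * ∑ l, x v l * y w l := by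
  rw [Fintype.sum_prod_type]
  simp only [Finset.sum_mul_sum]
  calc ∑ k : ι, ∑ l : κ, ∑ v, ∑ w, C k v * x v l * (C k w * y w l)
      = ∑ k : ι, ∑ v, ∑ w, ∑ l : κ, C k v * x v l * (C k w * y w l) := by
        refine Finset.sum_congr rfl fun k _ => ?_
        rw [Finset.sum_comm]
        refine Finset.sum_congr rfl fun v _ => ?_
        rw [Finset.sum_comm]
    _ = ∑ v, ∑ w, ∑ k : ι, ∑ l : κ, C k v * x v l * (C k w * y w l) := by
        rw [Finset.sum_comm]
        refine Finset.sum_congr rfl fun v _ => ?_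
        rw [Finset.sum_comm]
    _ = _ := by
        refine Finset.sum_congr rfl fun v _ => Finset.sum_congr rfl fun w _ =>
          Finset.sum_congr rfl fun k _ => Finset.sum_congr rfl fun l _ => ?_
        ring

/-- vectors `x v` with `⟨c, x v⟩ = 1`, `‖x v‖² ≤ s`, orthogonal along edges -/
def Feas {V : Type} (G : SimpleGraph V) (s : ℝ) : Prop :=
  ∃ (κ : Type) (_ : Fintype κ) (c : κ → ℝ) (x : V → κ → ℝ),
    (∑ k, c k * c k = 1) ∧ (∀ v, ∑ k, c k * x v k = 1) ∧ (∀ v, ∑ k, x v k * x v k ≤ s) ∧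
    ∀ v w, G.Adj v w → ∑ k, x v k * x w k = 0

/-- dual matrices -/
def Dual {V : Type} [Fintype V] (G : SimpleGraph V) (B : V → V → ℝ) : Prop :=
  PSD B ∧ ∀ v w, v ≠ w → ¬ G.Adj v w → B v w = 0

lemma sum_offdiag {V : Type} [Fintype V] [DecidableEq V] (f : V → V → ℝ)
    (h : ∀ v w, v ≠ w → f v w = 0) : ∑ v, ∑ w, f v w = ∑ v, f v v := by
  refine Finset.sum_congr rfl fun v _ => ?_
  rw [Finset.sum_eq_single v]
  · intro w _ hw
    exact h v w hw.symm
  · intro h
    exact absurd (Finset.mem_univ v) h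

lemma PSD.diag_nonneg {V : Type} [Fintype V] {Y : V → V → ℝ} (h : PSD Y) (v : V) :
    0 ≤ Y v v := by
  obtain ⟨n, C, hC⟩ := h.gram
  rw [hC]
  exact Finset.sum_nonneg fun k _ => mul_self_nonneg _

lemma PSD.abs_le {V : Type} [Fintype V] {Y : V → V → ℝ} (h : PSD Y) (v w : V) :
    |Y v w| ≤ (Y v v + Y w w) / 2 := by
  obtain ⟨n, C, hC⟩ := h.gram
  rw [hC, hC, hC, ← Finset.sum_add_distrib, Finset.sum_div]
  refine (Finset.abs_sum_le_sum_abs _ _).trans (Finset.sum_le_sum fun k _ => ?_)
  rw [abs_mul]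
  have := sq_nonneg (|C k v| - |C k w|)
  have h1 := abs_mul_abs_self (C k v)
  have h2 := abs_mul_abs_self (C k w)
  nlinarith

lemma weak {V : Type} [Fintype V] {G : SimpleGraph V} {B : V → V → ℝ} (hB : Dual G B) {s : ℝ}
    (hs : Feas G s) : ∑ v, ∑ w, B v w ≤ s * ∑ v, B v v := by
  classical
  obtain ⟨κ, _, c, x, hc, hcx, hxs, hort⟩ := hs
  obtain ⟨n, C, hC⟩ := hB.1.gram
  have h1 : ∑ v, ∑ w, B v w = ∑ k, (∑ v, C k v) ^ 2 := by
    simp only [hC, sq, Finset.sum_mul_sum]
    calc ∑ v, ∑ w, ∑ k, C k v * C k w = ∑ v, ∑ k, ∑ w, C k v * C k w :=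
          Finset.sum_congr rfl fun v _ => Finset.sum_comm
      _ = _ := Finset.sum_comm
  have h2 : ∀ k, ∑ v, C k v = ∑ l, c l * ∑ v, C k v * x v l := by
    intro k
    simp only [Finset.mul_sum]
    rw [Finset.sum_comm]
    refine Finset.sum_congr rfl fun v _ => ?_
    calc C k v = C k v * ∑ l, c l * x v l := by rw [hcx v, mul_one]
      _ = _ := by
        rw [Finset.mul_sum]
        exact Finset.sum_congr rfl fun l _ => by ring
  have h3 : ∀ k, (∑ v, C k v) ^ 2 ≤ ∑ l, (∑ v, C k v * x v l) * (∑ v, C k v * x v l) := by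
    intro k
    rw [h2]
    have := Finset.sum_mul_sq_le_sq_mul_sq Finset.univ c (fun l => ∑ v, C k v * x v l)
    have hc' : ∑ l, c l ^ 2 = 1 := by
      rw [← hc]
      exact Finset.sum_congr rfl fun l _ => sq _
    rw [hc', one_mul] at this
    refine this.trans (le_of_eq (Finset.sum_congr rfl fun l _ => sq _))
  have h4 : ∑ k, (∑ v, C k v) ^ 2 ≤
      ∑ p : Fin n × κ, (∑ v, C p.1 v * x v p.2) * (∑ v, C p.1 v * x v p.2) := by
    rw [Fintype.sum_prod_type]
    exact Finset.sum_le_sum fun k _ => h3 k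
  rw [h1]
  refine h4.trans ?_
  rw [gram_sum]
  simp only [← hC]
  rw [sum_offdiag (fun v w => B v w * ∑ l, x v l * x w l)]
  · rw [Finset.mul_sum]
    refine Finset.sum_le_sum fun v _ => ?_
    rw [mul_comm s]
    exact mul_le_mul_of_nonneg_left (hxs v) (hB.1.diag_nonneg v)
  · intro v w hvw
    by_cases h : G.Adj v w
    · rw [hort v w h, mul_zero]
    · rw [hB.2 v w hvw h, zero_mul]


lemma PSD.closed {V : Type} [Fintype V] : IsClosed {Y : V → V → ℝ | PSD Y} := by
  unfold PSD
  simp only [Set.ofPred_and, Set.ofPred_forall]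
  refine IsClosed.inter (isClosed_iInter fun v => isClosed_iInter fun w => ?_)
    (isClosed_iInter fun y => ?_)
  · exact isClosed_eq (by fun_prop) (by fun_prop)
  · exact isClosed_le (by fun_prop) (by fun_prop)

lemma Dual.closed {V : Type} [Fintype V] (G : SimpleGraph V) :
    IsClosed {Y : V → V → ℝ | Dual G Y} := by
  unfold Dual
  simp only [Set.ofPred_and, Set.ofPred_forall]
  refine IsClosed.inter PSD.closed (isClosed_iInter fun v => isClosed_iInter fun w =>
    isClosed_iInter fun _ => isClosed_iInter fun _ => ?_)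
  exact isClosed_eq (by fun_prop) (by fun_prop)

lemma PSD.smul {V : Type} [Fintype V] {Y : V → V → ℝ} (h : PSD Y) {a : ℝ} (ha : 0 ≤ a) :
    PSD (fun v w => a * Y v w) := by
  refine ⟨fun v w => by simp only [h.1 v w], fun y => ?_⟩
  have e : ∑ v, ∑ w, y v * y w * (a * Y v w) = a * ∑ v, ∑ w, y v * y w * Y v w := by
    simp only [Finset.mul_sum]
    exact Finset.sum_congr rfl fun v _ => Finset.sum_congr rfl fun w _ => by ring
  rw [e]
  exact mul_nonneg ha (h.2 y)

lemma PSD.add {V : Type} [Fintype V] {Y Z : V → V → ℝ} (h : PSD Y) (h' : PSD Z) :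
    PSD (fun v w => Y v w + Z v w) := by
  refine ⟨fun v w => by simp only [h.1 v w, h'.1 v w], fun y => ?_⟩
  have e : ∑ v, ∑ w, y v * y w * (Y v w + Z v w)
      = ∑ v, ∑ w, y v * y w * Y v w + ∑ v, ∑ w, y v * y w * Z v w := by
    simp only [← Finset.sum_add_distrib]
    exact Finset.sum_congr rfl fun v _ => Finset.sum_congr rfl fun w _ => by ring
  rw [e]
  exact add_nonneg (h.2 y) (h'.2 y)

lemma PSD.zero {V : Type} [Fintype V] : PSD (fun _ _ : V => (0 : ℝ)) :=
  ⟨fun _ _ => rfl, fun y => by simp⟩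

lemma PSD.eq_zero {V : Type} [Fintype V] {Y : V → V → ℝ} (h : PSD Y)
    (h0 : ∑ v, Y v v = 0) (v w : V) : Y v w = 0 := by
  have hd : ∀ v, Y v v = 0 := fun v =>
    (Finset.sum_eq_zero_iff_of_nonneg fun v _ => h.diag_nonneg v).1 h0 v (Finset.mem_univ v)
  have := h.abs_le v w
  rw [hd, hd] at this
  simp only [add_zero, zero_div] at this
  exact abs_eq_zero.1 (le_antisymm this (abs_nonneg _))

/-- the optimal dual matrix -/
lemma exists_opt {V : Type} [Fintype V] [Nonempty V] (G : SimpleGraph V) :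
    ∃ B : V → V → ℝ, Dual G B ∧ ∑ v, B v v = 1 ∧
      ∀ B', Dual G B' → ∑ v, ∑ w, B' v w ≤ (∑ v, ∑ w, B v w) * ∑ v, B' v v := by
  classical
  let S : Set (V → V → ℝ) := {B | Dual G B} ∩ {B | ∑ v, B v v = 1}
  have hcl : IsClosed S := (Dual.closed G).inter (isClosed_eq (by fun_prop) (by fun_prop))
  have hbd : Bornology.IsBounded S := by
    rw [Metric.isBounded_iff_subset_closedBall 0]
    refine ⟨1, fun B hB => ?_⟩
    rw [Metric.mem_closedBall, dist_zero_right, pi_norm_le_iff_of_nonneg zero_le_one]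
    intro v
    rw [pi_norm_le_iff_of_nonneg zero_le_one]
    intro w
    rw [Real.norm_eq_abs]
    have h1 : ∀ v, B v v ≤ 1 := by
      intro v
      have := hB.2
      rw [Set.mem_ofPred_eq] at this
      rw [← this]
      exact Finset.single_le_sum (f := fun v => B v v) (fun v _ => hB.1.1.diag_nonneg v)
        (Finset.mem_univ v)
    have := hB.1.1.abs_le v w
    linarith [h1 v, h1 w]
  have hK : IsCompact S := Metric.isCompact_of_isClosed_isBounded hcl hbd
  have hne : S.Nonempty := by
    refine ⟨fun v w => if v = w then (1 : ℝ) / Fintype.card V else 0, ⟨⟨?_, ?_⟩, ?_⟩, ?_⟩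
    · intro v w
      by_cases h : v = w
      · subst h; rfl
      · simp only [if_neg h, if_neg (Ne.symm h)]
    · intro y
      have : ∀ v, ∑ w, y v * y w * (if v = w then (1 : ℝ) / Fintype.card V else 0)
          = y v * y v * (1 / Fintype.card V) := by
        intro v
        rw [Finset.sum_eq_single v]
        · rw [if_pos rfl]
        · intro w _ hw
          rw [if_neg hw.symm, mul_zero]
        · intro h
          exact absurd (Finset.mem_univ v) h
      simp only [this]
      exact Finset.sum_nonneg fun v _ => mul_nonneg (mul_self_nonneg _) (by positivity)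
    · intro v w h _
      exact if_neg h
    · rw [Set.mem_ofPred_eq]
      simp
  obtain ⟨B, hB, hmax⟩ := hK.exists_isMaxOn hne
    (f := fun B : V → V → ℝ => ∑ v, ∑ w, B v w) (by fun_prop)
  refine ⟨B, hB.1, hB.2, fun B' hB' => ?_⟩
  set a := ∑ v, B' v v with ha
  have ha0 : 0 ≤ a := Finset.sum_nonneg fun v _ => hB'.1.diag_nonneg v
  rcases ha0.eq_or_lt with h | h
  · have := hB'.1.eq_zero (by rw [← ha, ← h])
    simp only [this, Finset.sum_const_zero, ← h, mul_zero, le_refl]
  · have hm : (fun v w => a⁻¹ * B' v w) ∈ S := by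
      refine ⟨⟨hB'.1.smul (inv_nonneg.2 ha0), fun v w h1 h2 => ?_⟩, ?_⟩
      · simp only [hB'.2 v w h1 h2, mul_zero]
      · rw [Set.mem_ofPred_eq, ← Finset.mul_sum, ← ha, inv_mul_cancel₀ h.ne']
    have := hmax hm
    simp only [Set.mem_ofPred_eq, ← Finset.mul_sum] at this
    rw [inv_mul_le_iff₀ h] at this
    rw [mul_comm]
    exact this

/-- the cone used in the duality theorem -/
def Cone {V : Type} [Fintype V] (G : SimpleGraph V) : Set (V → V → ℝ) :=
  {Z | ∃ Y : V → V → ℝ, PSD Y ∧ (∀ v, Y v v ≤ Z v v) ∧ ∀ v w, G.Adj v w → Y v w = Z v w}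

lemma Cone.convex {V : Type} [Fintype V] (G : SimpleGraph V) : Convex ℝ (Cone G) := by
  rintro Z ⟨Y, h1, h2, h3⟩ Z' ⟨Y', h1', h2', h3'⟩ a b ha hb _
  refine ⟨fun v w => a * Y v w + b * Y' v w, (h1.smul ha).add (h1'.smul hb), ?_, ?_⟩
  · intro v
    simp only [Pi.add_apply, Pi.smul_apply, smul_eq_mul]
    exact add_le_add (mul_le_mul_of_nonneg_left (h2 v) ha) (mul_le_mul_of_nonneg_left (h2' v) hb)
  · intro v w h
    simp only [Pi.add_apply, Pi.smul_apply, smul_eq_mul, h3 v w h, h3' v w h]

lemma Cone.closed {V : Type} [Fintype V] (G : SimpleGraph V) : IsClosed (Cone G) := by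
  apply IsSeqClosed.isClosed
  intro Z Z0 hZ hlim
  choose Y h1 h2 h3 using hZ
  have hb : ∃ R : ℝ, 0 ≤ R ∧ ∀ n v, Z n v v ≤ R := by
    obtain ⟨R, hR⟩ := (Metric.isBounded_range_of_tendsto Z hlim).exists_norm_le
    refine ⟨max R 0, le_max_right _ _, fun n v => ?_⟩
    have := hR (Z n) ⟨n, rfl⟩
    refine le_trans ?_ (le_max_left _ _)
    calc Z n v v ≤ ‖Z n v v‖ := Real.le_norm_self _
      _ ≤ ‖Z n v‖ := norm_le_pi_norm _ _
      _ ≤ ‖Z n‖ := norm_le_pi_norm _ _
      _ ≤ R := this
  obtain ⟨R, hR0, hR⟩ := hb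
  have hY : ∀ n, Y n ∈ Metric.closedBall (0 : V → V → ℝ) R := by
    intro n
    rw [Metric.mem_closedBall, dist_zero_right, pi_norm_le_iff_of_nonneg hR0]
    intro v
    rw [pi_norm_le_iff_of_nonneg hR0]
    intro w
    rw [Real.norm_eq_abs]
    have := (h1 n).abs_le v w
    linarith [(h2 n v).trans (hR n v), (h2 n w).trans (hR n w)]
  obtain ⟨Y0, _, φ, hφ, hY0⟩ := (isCompact_closedBall (0 : V → V → ℝ) R).tendsto_subseq hY
  have hZφ : Filter.Tendsto (fun n => Z (φ n)) Filter.atTop (nhds Z0) :=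
    hlim.comp hφ.tendsto_atTop
  have hYe : ∀ v w, Filter.Tendsto (fun n => Y (φ n) v w) Filter.atTop (nhds (Y0 v w)) := by
    intro v w
    exact (tendsto_pi_nhds.1 (tendsto_pi_nhds.1 hY0 v)) w
  have hZe : ∀ v w, Filter.Tendsto (fun n => Z (φ n) v w) Filter.atTop (nhds (Z0 v w)) := by
    intro v w
    exact (tendsto_pi_nhds.1 (tendsto_pi_nhds.1 hZφ v)) w
  refine ⟨Y0, ?_, ?_, ?_⟩
  · exact PSD.closed.mem_of_tendsto hY0 (Filter.Eventually.of_forall fun n => h1 _)
  · intro v
    exact le_of_tendsto_of_tendsto' (hYe v v) (hZe v v) fun n => h2 _ v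
  · intro v w h
    have := hYe v w
    have h4 : (fun n => Y (φ n) v w) = fun n => Z (φ n) v w := by
      funext n
      exact h3 _ v w h
    rw [h4] at this
    exact tendsto_nhds_unique this (hZe v w)

/-- strong duality -/
lemma strong {V : Type} [Fintype V] [DecidableEq V] (G : SimpleGraph V) (t : ℝ)
    (ht : ∀ B, Dual G B → ∑ v, ∑ w, B v w ≤ t * ∑ v, B v v) :
    (fun v w => if v = w then t - 1 else -1 : V → V → ℝ) ∈ Cone G := by
  by_contra hp
  set p : V → V → ℝ := fun v w => if v = w then t - 1 else -1 with hpdef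
  obtain ⟨f, u, hu, hfp⟩ := geometric_hahn_banach_closed_point (Cone.convex G) (Cone.closed G) hp
  have hscale : ∀ Z ∈ Cone G, ∀ a : ℝ, 0 ≤ a → (fun v w => a * Z v w) ∈ Cone G := by
    rintro Z ⟨Y, h1, h2, h3⟩ a ha
    refine ⟨fun v w => a * Y v w, h1.smul ha, fun v => mul_le_mul_of_nonneg_left (h2 v) ha,
      fun v w h => by simp only [h3 v w h]⟩
  have h0 : (0 : V → V → ℝ) ∈ Cone G := ⟨fun _ _ => 0, PSD.zero, fun v => le_refl _, fun v w _ => rfl⟩
  have hu0 : 0 < u := by
    have := hu _ h0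
    rwa [map_zero] at this
  have hneg : ∀ Z ∈ Cone G, f Z ≤ 0 := by
    intro Z hZ
    by_contra hcon
    rw [not_le] at hcon
    have h1 := hu _ (hscale Z hZ (u / f Z) (div_nonneg hu0.le hcon.le))
    have h2 : (fun v w => u / f Z * Z v w) = (u / f Z) • Z := rfl
    rw [h2, map_smul, smul_eq_mul, div_mul_cancel₀ _ hcon.ne'] at h1
    exact lt_irrefl _ h1
  -- the matrix of the functional
  set A : V → V → ℝ := fun v w => - f (Pi.single v (Pi.single w 1)) with hA
  have hfA : ∀ Z : V → V → ℝ, f Z = - ∑ v, ∑ w, Z v w * A v w := by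
    intro Z
    have e : Z = ∑ v, ∑ w, Z v w • (Pi.single v (Pi.single w (1 : ℝ)) : V → V → ℝ) := by
      funext a b
      simp only [Finset.sum_apply, Pi.smul_apply, smul_eq_mul]
      rw [Finset.sum_eq_single a, Finset.sum_eq_single b]
      · simp
      · intro w _ hw
        rw [Pi.single_eq_same, Pi.single_eq_of_ne hw.symm, mul_zero]
      · intro h
        exact absurd (Finset.mem_univ _) h
      · intro v _ hv
        refine Finset.sum_eq_zero fun w _ => ?_
        rw [Pi.single_eq_of_ne hv.symm, Pi.zero_apply, mul_zero]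
      · intro h
        exact absurd (Finset.mem_univ _) h
    conv_lhs => rw [e]
    simp only [map_sum, map_smul, smul_eq_mul, hA]
    rw [← Finset.sum_neg_distrib]
    refine Finset.sum_congr rfl fun v _ => ?_
    rw [← Finset.sum_neg_distrib]
    exact Finset.sum_congr rfl fun w _ => by ring
  have hnonadj : ∀ v w, v ≠ w → ¬ G.Adj v w → A v w = 0 := by
    intro v w hvw h
    have key : ∀ a : ℝ, (Pi.single v (Pi.single w a) : V → V → ℝ) ∈ Cone G := by
      intro a
      refine ⟨fun _ _ => 0, PSD.zero, ?_, ?_⟩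
      · intro x
        by_cases hx : x = v
        · subst hx
          rw [Pi.single_eq_same, Pi.single_eq_of_ne hvw]
        · rw [Pi.single_eq_of_ne hx]
          rfl
      · intro x y hxy
        by_cases hx : x = v
        · subst hx
          by_cases hy : y = w
          · subst hy
            exact absurd hxy h
          · rw [Pi.single_eq_same, Pi.single_eq_of_ne hy]
        · rw [Pi.single_eq_of_ne hx]
          rfl
    have h1 := hneg _ (key 1)
    have h2 := hneg _ (key (-1))
    have h3 : (Pi.single v (Pi.single w (-1 : ℝ)) : V → V → ℝ)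
        = - Pi.single v (Pi.single w (1 : ℝ)) := by
      rw [Pi.single_neg, Pi.single_neg]
    rw [h3, map_neg] at h2
    simp only [hA]
    linarith
  -- symmetrise
  set B : V → V → ℝ := fun v w => (A v w + A w v) / 2 with hB
  have hquad : ∀ y : V → ℝ, ∑ v, ∑ w, y v * y w * B v w = ∑ v, ∑ w, y v * y w * A v w := by
    intro y
    have e1 : ∑ v, ∑ w, y v * y w * B v w
        = (∑ v, ∑ w, y v * y w * A v w) / 2 + (∑ v, ∑ w, y v * y w * A w v) / 2 := by
      rw [Finset.sum_div, Finset.sum_div, ← Finset.sum_add_distrib]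
      refine Finset.sum_congr rfl fun v _ => ?_
      rw [Finset.sum_div, Finset.sum_div, ← Finset.sum_add_distrib]
      exact Finset.sum_congr rfl fun w _ => by simp only [hB]; ring
    have e2 : ∑ v, ∑ w, y v * y w * A w v = ∑ v, ∑ w, y v * y w * A v w := by
      rw [Finset.sum_comm]
      exact Finset.sum_congr rfl fun v _ => Finset.sum_congr rfl fun w _ => by ring
    rw [e1, e2]
    ring
  have hBdual : Dual G B := by
    refine ⟨⟨fun v w => by simp only [hB]; ring, fun y => ?_⟩, fun v w h1 h2 => ?_⟩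
    · rw [hquad]
      have hm : (fun v w => y v * y w : V → V → ℝ) ∈ Cone G := by
        refine ⟨fun v w => y v * y w, ?_, fun v => le_refl _, fun v w _ => rfl⟩
        have := PSD.of_gram (V := V) (κ := Unit) (fun v _ => y v)
        simpa using this
      have := hneg _ hm
      rw [hfA] at this
      linarith
    · simp only [hB, hnonadj v w h1 h2, hnonadj w v (Ne.symm h1) (fun h => h2 h.symm)]
      ring
  have hfin := ht B hBdual
  have e3 : f p = ∑ v, ∑ w, A v w - t * ∑ v, A v v := by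
    rw [hfA]
    have : ∀ v w, p v w * A v w = (if v = w then t * A v w else 0) - A v w := by
      intro v w
      simp only [hpdef]
      split_ifs <;> ring
    simp only [this, Finset.sum_sub_distrib]
    simp only [Finset.sum_ite_eq, Finset.mem_univ, if_true, ← Finset.mul_sum]
    ring
  have e4 : ∑ v, ∑ w, B v w = ∑ v, ∑ w, A v w := by
    have := hquad (fun _ => 1)
    simpa using this
  have e5 : ∑ v, B v v = ∑ v, A v v := Finset.sum_congr rfl fun v _ => by simp only [hB]; ring
  rw [e4, e5] at hfin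
  linarith


lemma PathAdj.symm {r : ℕ} {i j : Fin (r + 1)} (h : PathAdj i j) : PathAdj j i := by
  unfold PathAdj at h ⊢
  tauto

/-- For `r ≥ 1` no loops arise. -/
lemma genMyc_adj {V : Type} {r : ℕ} (hr : 1 ≤ r) (G : SimpleGraph V) (a b : Option (V × Fin r)) :
    (genMyc r G).Adj a b ↔ ∃ (v w : V) (i j : Fin (r + 1)),
      proj v i = a ∧ proj w j = b ∧ G.Adj v w ∧ PathAdj i j := by
  unfold genMyc
  rw [SimpleGraph.fromRel_adj]
  constructor
  · rintro ⟨_, h | ⟨v, w, i, j, h1, h2, h3, h4⟩⟩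
    · exact h
    · exact ⟨w, v, j, i, h2, h1, h3.symm, h4.symm⟩
  · rintro ⟨v, w, i, j, h1, h2, h3, h4⟩
    refine ⟨?_, Or.inl ⟨v, w, i, j, h1, h2, h3, h4⟩⟩
    rw [← h1, ← h2]
    unfold proj
    intro he
    by_cases hi : (i : ℕ) < r
    · by_cases hj : (j : ℕ) < r
      · rw [dif_pos hi, dif_pos hj] at he
        have := congrArg Prod.fst (Option.some.inj he)
        exact h3.ne this
      · rw [dif_pos hi, dif_neg hj] at he
        exact absurd he (by simp)
    · by_cases hj : (j : ℕ) < r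
      · rw [dif_neg hi, dif_pos hj] at he
        exact absurd he (by simp)
      · have h5 := i.2
        have h6 := j.2
        unfold PathAdj at h4
        omega

lemma one_le_of_feas {V : Type} [Nonempty V] {G : SimpleGraph V} {s : ℝ} (h : Feas G s) :
    1 ≤ s := by
  obtain ⟨κ, _, c, x, hc, hcx, hxs, _⟩ := h
  obtain ⟨v⟩ := ‹Nonempty V›
  have := Finset.sum_mul_sq_le_sq_mul_sq Finset.univ c (x v)
  rw [hcx v] at this
  simp only [sq] at this
  rw [hc, one_mul, one_mul] at this
  exact this.trans (hxs v)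

lemma transfer {V W : Type} [Fintype V] [Nonempty V] [Fintype W]
    (G : SimpleGraph V) (H : SimpleGraph W) {r : ℕ} (hr : 1 ≤ r) {t s : ℝ}
    {B : W → W → ℝ} (hB : Dual H B) (htr : ∑ w, B w w = 1) (hval : ∑ v, ∑ w, B v w = t)
    (hopt : ∀ B', Dual H B' → ∑ v, ∑ w, B' v w ≤ t * ∑ v, B' v v)
    {Y : V → V → ℝ} (hY : PSD Y) (hYd : ∀ v, Y v v ≤ t - 1)
    (hYa : ∀ v w, G.Adj v w → Y v w = -1)
    (hs : Feas (genMyc r H) s) : Feas (genMyc r G) s := by
  classical
  have hs1 : 1 ≤ s := one_le_of_feas hs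
  have ht1 : 1 ≤ t := by
    obtain ⟨v⟩ := ‹Nonempty V›
    have h1 := hY.diag_nonneg v
    have h2 := hYd v
    linarith
  rcases ht1.eq_or_lt with h1 | h1
  · -- no edges
    refine ⟨Unit, inferInstance, fun _ => 1, fun _ _ => 1, by simp, by simp, by simpa using hs1, ?_⟩
    intro a b hab
    obtain ⟨v, w, i, j, _, _, hvw, _⟩ := (genMyc_adj hr G a b).1 hab
    exfalso
    have h2 := hY.abs_le v w
    have h3 := hYd v
    have h4 := hYd w
    rw [hYa v w hvw, ← h1] at *
    norm_num at h2
    linarith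
  obtain ⟨κ, _, c, x, hc, hcx, hxs, hort⟩ := hs
  have ht0 : 0 < t := by linarith
  have htm : 0 < t - 1 := by linarith
  -- the two matrices
  set P0 : W → W → ℝ := fun v w => t⁻¹ * B v w with hP0
  set Q0 : W → W → ℝ := fun v w =>
    (t * (t - 1))⁻¹ * ((if v = w then t * B v v else 0) - B v w) with hQ0
  have hPpsd : PSD P0 := hB.1.smul (inv_nonneg.2 ht0.le)
  have hQpsd : PSD Q0 := by
    refine PSD.smul ⟨fun v w => ?_, fun y => ?_⟩ (inv_nonneg.2 (mul_nonneg ht0.le htm.le))
    · by_cases h : v = w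
      · subst h; rfl
      · simp only [if_neg h, if_neg (Ne.symm h), hB.1.1 v w]
    · have hd : Dual H (fun v w => y v * y w * B v w) := by
        refine ⟨⟨fun v w => by simp only [hB.1.1 v w]; ring, fun z => ?_⟩, fun v w h2 h3 => ?_⟩
        · have := hB.1.2 (fun v => z v * y v)
          refine this.trans (le_of_eq (Finset.sum_congr rfl fun v _ =>
            Finset.sum_congr rfl fun w _ => by ring))
        · simp only [hB.2 v w h2 h3, mul_zero]
      have h2 := hopt _ hd
      have e : ∑ v, ∑ w, y v * y w * ((if v = w then t * B v v else 0) - B v w)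
          = t * ∑ v, y v * y v * B v v - ∑ v, ∑ w, y v * y w * B v w := by
        have : ∀ v w, y v * y w * ((if v = w then t * B v v else 0) - B v w)
            = (if v = w then t * (y v * y w * B v v) else 0) - y v * y w * B v w := by
          intro v w
          split_ifs <;> ring
        simp only [this, Finset.sum_sub_distrib, Finset.sum_ite_eq, Finset.mem_univ, if_true,
          ← Finset.mul_sum]
      rw [e]
      linarith
  have hPsum : ∑ v, ∑ w, P0 v w = 1 := by
    simp only [hP0, ← Finset.mul_sum]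
    rw [hval, inv_mul_cancel₀ ht0.ne']
  have hQsum : ∑ v, ∑ w, Q0 v w = 0 := by
    simp only [hQ0, ← Finset.mul_sum, Finset.sum_sub_distrib, Finset.sum_ite_eq, Finset.mem_univ,
      if_true]
    rw [hval, htr]
    ring
  obtain ⟨n, C, hC⟩ := hPpsd.gram
  obtain ⟨m, D, hD⟩ := hQpsd.gram
  have hD0 : ∀ k, ∑ v, D k v = 0 := by
    have e : ∑ v, ∑ w, Q0 v w = ∑ k, (∑ v, D k v) ^ 2 := by
      simp only [hD, sq, Finset.sum_mul_sum]
      calc ∑ v, ∑ w, ∑ k, D k v * D k w = ∑ v, ∑ k, ∑ w, D k v * D k w :=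
            Finset.sum_congr rfl fun v _ => Finset.sum_comm
        _ = _ := Finset.sum_comm
    rw [hQsum] at e
    intro k
    have := (Finset.sum_eq_zero_iff_of_nonneg (fun k _ => sq_nonneg (∑ v, D k v))).1 e.symm k
      (Finset.mem_univ k)
    exact pow_eq_zero_iff (two_ne_zero) |>.1 this
  obtain ⟨ℓ, y, hy⟩ := hY.gram
  -- inner products of the x's
  set X : W → Fin (r + 1) → κ → ℝ := fun v i => x (proj v i) with hX
  set IP : Fin (r + 1) → Fin (r + 1) → W → W → ℝ := fun i j v w => ∑ l, X v i l * X w j l with hIP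
  set p : Fin (r + 1) → Fin n × κ → ℝ := fun i q => ∑ v, C q.1 v * X v i q.2 with hp
  set q : Fin (r + 1) → Fin m × κ → ℝ := fun i q => ∑ v, D q.1 v * X v i q.2 with hq
  have hpp : ∀ i j, ∑ a, p i a * p j a = ∑ v, ∑ w, P0 v w * IP i j v w := by
    intro i j
    simp only [hp, hC, hIP]
    exact gram_sum C (fun v => X v i) (fun v => X v j)
  have hqq : ∀ i j, ∑ a, q i a * q j a = ∑ v, ∑ w, Q0 v w * IP i j v w := by
    intro i j
    simp only [hq, hD, hIP]
    exact gram_sum D (fun v => X v i) (fun v => X v j)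
  have hedge : ∀ i j, PathAdj i j → ∑ a, p i a * p j a = ∑ a, q i a * q j a := by
    intro i j hij
    rw [hpp, hqq]
    refine Finset.sum_congr rfl fun v _ => Finset.sum_congr rfl fun w _ => ?_
    by_cases hvw : v = w
    · subst hvw
      simp only [hP0, hQ0, if_true]
      field_simp
    · by_cases hadj : H.Adj v w
      · have : IP i j v w = 0 := hort _ _ ((genMyc_adj hr H _ _).2 ⟨v, w, i, j, rfl, rfl, hadj, hij⟩)
        rw [this, mul_zero, mul_zero]
      · simp only [hP0, hQ0, if_neg hvw, hB.2 v w hvw hadj]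
        ring
  have hnorm : ∀ i, ∑ a, p i a * p i a + (t - 1) * ∑ a, q i a * q i a ≤ s := by
    intro i
    rw [hpp, hqq, Finset.mul_sum, ← Finset.sum_add_distrib]
    have e : ∀ v, (∑ w, P0 v w * IP i i v w + (t - 1) * ∑ w, Q0 v w * IP i i v w)
        = B v v * IP i i v v := by
      intro v
      rw [Finset.mul_sum, ← Finset.sum_add_distrib, Finset.sum_eq_single v]
      · simp only [hP0, hQ0, if_true]
        field_simp
        ring
      · intro w _ hw
        simp only [hP0, hQ0, if_neg hw.symm]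
        field_simp
        ring
      · intro h
        exact absurd (Finset.mem_univ v) h
    simp only [e]
    calc ∑ v, B v v * IP i i v v ≤ ∑ v, B v v * s :=
          Finset.sum_le_sum fun v _ => mul_le_mul_of_nonneg_left (hxs _) (hB.1.diag_nonneg v)
      _ = s := by rw [← Finset.sum_mul, htr, one_mul]
  have hqlast : ∀ a, q (Fin.last r) a = 0 := by
    intro a
    have : ∀ v, X v (Fin.last r) a.2 = x none a.2 := by
      intro v
      simp only [hX, proj]
      rw [dif_neg (by simp)]
    simp only [hq, this, ← Finset.sum_mul, hD0, zero_mul]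
  -- the new vectors
  let z : Option (V × Fin r) → (Fin n × κ) ⊕ (Fin ℓ × (Fin m × κ)) → ℝ := fun o a =>
    match o, a with
    | some (_, i), Sum.inl a => p i.castSucc a
    | some (v, i), Sum.inr b => y b.1 v * q i.castSucc b.2
    | none, Sum.inl a => p (Fin.last r) a
    | none, Sum.inr _ => 0
  have hz1 : ∀ (v : V) (i : Fin (r + 1)) a, z (proj v i) (Sum.inl a) = p i a := by
    intro v i a
    unfold proj
    by_cases h : (i : ℕ) < r
    · rw [dif_pos h]
      rfl
    · rw [dif_neg h]
      have : i = Fin.last r := by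
        apply Fin.ext
        have := i.2
        rw [Fin.val_last]
        omega
      rw [this]
  have hz2 : ∀ (v : V) (i : Fin (r + 1)) b, z (proj v i) (Sum.inr b) = y b.1 v * q i b.2 := by
    intro v i b
    unfold proj
    by_cases h : (i : ℕ) < r
    · rw [dif_pos h]
      rfl
    · rw [dif_neg h]
      have : i = Fin.last r := by
        apply Fin.ext
        have := i.2
        rw [Fin.val_last]
        omega
      rw [this, hqlast, mul_zero]
  have hzz : ∀ (v w : V) (i j : Fin (r + 1)), ∑ a, z (proj v i) a * z (proj w j) a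
      = ∑ a, p i a * p j a + Y v w * ∑ a, q i a * q j a := by
    intro v w i j
    rw [Fintype.sum_sum_type]
    simp only [hz1, hz2]
    congr 1
    rw [Fintype.sum_prod_type, hy, Finset.sum_mul_sum]
    exact Finset.sum_congr rfl fun _ _ => Finset.sum_congr rfl fun _ _ => by ring
  have hsurj : ∀ o : Option (V × Fin r), ∃ (v : V) (i : Fin (r + 1)), proj v i = o := by
    intro o
    rcases o with _ | ⟨v, i⟩
    · obtain ⟨v⟩ := ‹Nonempty V›
      exact ⟨v, Fin.last r, by unfold proj; rw [dif_neg (by simp)]⟩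
    · exact ⟨v, i.castSucc, by unfold proj; rw [dif_pos (by simp)]; rfl⟩
  let c' : (Fin n × κ) ⊕ (Fin ℓ × (Fin m × κ)) → ℝ := fun a =>
    match a with
    | Sum.inl a => ∑ v, C a.1 v * c a.2
    | Sum.inr _ => 0
  refine ⟨(Fin n × κ) ⊕ (Fin ℓ × (Fin m × κ)), inferInstance, c', z, ?_, ?_, ?_, ?_⟩
  · rw [Fintype.sum_sum_type]
    simp only [c', mul_zero, Finset.sum_const_zero, add_zero]
    rw [gram_sum C (fun _ => c) (fun _ => c)]
    simp only [hc, mul_one, ← hC]
    exact hPsum
  · intro o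
    obtain ⟨v, i, rfl⟩ := hsurj o
    rw [Fintype.sum_sum_type]
    simp only [c', zero_mul, Finset.sum_const_zero, add_zero, hz1, hp]
    rw [gram_sum C (fun _ => c) (fun v => X v i)]
    simp only [hX, hcx, mul_one, ← hC]
    exact hPsum
  · intro o
    obtain ⟨v, i, rfl⟩ := hsurj o
    rw [hzz]
    refine le_trans ?_ (hnorm i)
    have : 0 ≤ ∑ a, q i a * q i a := Finset.sum_nonneg fun a _ => mul_self_nonneg _
    have h2 := mul_le_mul_of_nonneg_right (hYd v) this
    linarith
  · intro a b hab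
    obtain ⟨v, w, i, j, rfl, rfl, hvw, hij⟩ := (genMyc_adj hr G a b).1 hab
    rw [hzz, hYa v w hvw, hedge i j hij]
    ring


lemma inner_sum {d : ℕ} (a b : EuclideanSpace ℝ (Fin d)) : inner ℝ a b = ∑ k, a k * b k := by
  rw [PiLp.inner_apply]
  exact Finset.sum_congr rfl fun k _ => by simp [mul_comm]

lemma feas_of_mem {V : Type} {G : SimpleGraph V} {s : ℝ} (h : s ∈ thetaValues G) : Feas G s := by
  obtain ⟨d, u, c, ⟨hu, ho⟩, hc, hn, hs⟩ := h
  refine ⟨Fin d, inferInstance, fun k => c k, fun v k => u v k / inner ℝ c (u v), ?_, ?_, ?_, ?_⟩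
  · rw [← inner_sum, real_inner_self_eq_norm_sq, hc, one_pow]
  · intro v
    have : ∀ k, c k * (u v k / inner ℝ c (u v)) = (c k * u v k) / inner ℝ c (u v) :=
      fun k => (mul_div_assoc _ _ _).symm
    simp only [this]
    rw [← Finset.sum_div, ← inner_sum, div_self (hn v)]
  · intro v
    have : ∀ k, u v k / inner ℝ c (u v) * (u v k / inner ℝ c (u v))
        = (u v k * u v k) / (inner ℝ c (u v)) ^ 2 := fun k => by
      rw [div_mul_div_comm, sq]
    simp only [this]
    rw [← Finset.sum_div, ← inner_sum, real_inner_self_eq_norm_sq, hu v, one_pow]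
    exact hs.2 ⟨v, rfl⟩
  · intro v w hvw
    have : ∀ k, u v k / inner ℝ c (u v) * (u w k / inner ℝ c (u w))
        = (u v k * u w k) / (inner ℝ c (u v) * inner ℝ c (u w)) := fun k => by
      rw [div_mul_div_comm]
    simp only [this]
    rw [← Finset.sum_div, ← inner_sum, ho v w hvw, zero_div]

lemma mem_of_feas {V : Type} [Finite V] [Nonempty V] {G : SimpleGraph V} {s : ℝ}
    (h : Feas G s) : ∃ s' ∈ thetaValues G, s' ≤ s := by
  obtain ⟨κ, _, c, x, hc, hcx, hxs, hort⟩ := h
  set N : V → ℝ := fun v => ∑ k, x v k * x v k with hN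
  have hN1 : ∀ v, 1 ≤ N v := by
    intro v
    have := Finset.sum_mul_sq_le_sq_mul_sq Finset.univ c (x v)
    rw [hcx v] at this
    simp only [sq] at this
    rw [hc, one_mul, one_mul] at this
    exact this
  have hN0 : ∀ v, 0 < √(N v) := fun v => Real.sqrt_pos.2 (by linarith [hN1 v])
  obtain ⟨v0, hv0⟩ := Finite.exists_max N
  let e := Fintype.equivFin κ
  let c' : EuclideanSpace ℝ (Fin (Fintype.card κ)) := WithLp.toLp 2 fun k => c (e.symm k)
  let u : V → EuclideanSpace ℝ (Fin (Fintype.card κ)) := fun v =>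
    WithLp.toLp 2 fun k => x v (e.symm k) / √(N v)
  have hcu : ∀ v, inner ℝ c' (u v) = 1 / √(N v) := by
    intro v
    rw [inner_sum]
    have : ∀ k, c' k * u v k = c (e.symm k) * x v (e.symm k) / √(N v) := fun k =>
      (mul_div_assoc _ _ _).symm
    simp only [this]
    rw [← Finset.sum_div, e.symm.sum_comp (fun k => c k * x v k), hcx]
  have hval : ∀ v, 1 / (inner ℝ c' (u v)) ^ 2 = N v := by
    intro v
    rw [hcu, one_div, one_div, inv_pow, inv_inv, Real.sq_sqrt (by linarith [hN1 v])]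
  refine ⟨N v0, ⟨Fintype.card κ, u, c', ⟨?_, ?_⟩, ?_, ?_, ?_⟩, hxs v0⟩
  · intro v
    have h1 : ‖u v‖ ^ 2 = 1 := by
      rw [← real_inner_self_eq_norm_sq, inner_sum]
      have : ∀ k, u v k * u v k = (x v (e.symm k) * x v (e.symm k)) / N v := fun k => by
        change x v (e.symm k) / √(N v) * (x v (e.symm k) / √(N v)) = _
        rw [div_mul_div_comm, Real.mul_self_sqrt (by linarith [hN1 v])]
      simp only [this]
      rw [← Finset.sum_div, e.symm.sum_comp (fun k => x v k * x v k)]
      exact div_self (by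
        have := hN1 v
        change N v ≠ 0
        linarith)
    have h2 : 0 ≤ ‖u v‖ := norm_nonneg _
    nlinarith
  · intro v w hvw
    rw [inner_sum]
    have : ∀ k, u v k * u w k = (x v (e.symm k) * x w (e.symm k)) / (√(N v) * √(N w)) :=
      fun k => div_mul_div_comm _ _ _ _
    simp only [this]
    rw [← Finset.sum_div, e.symm.sum_comp (fun k => x v k * x w k), hort v w hvw, zero_div]
  · have h1 : ‖c'‖ ^ 2 = 1 := by
      rw [← real_inner_self_eq_norm_sq, inner_sum]
      have := e.symm.sum_comp (fun k => c k * c k)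
      rw [hc] at this
      exact this
    have h2 : 0 ≤ ‖c'‖ := norm_nonneg _
    nlinarith
  · intro v
    rw [hcu]
    exact one_div_ne_zero (hN0 v).ne'
  · refine ⟨⟨v0, hval v0⟩, ?_⟩
    rintro _ ⟨v, rfl⟩
    change 1 / (inner ℝ c' (u v)) ^ 2 ≤ N v0
    rw [hval]
    exact hv0 v

/-- optimal primal and dual solutions -/
lemma exists_both {V : Type} [Fintype V] [Nonempty V] (G : SimpleGraph V) :
    ∃ (t : ℝ) (B Y : V → V → ℝ), Dual G B ∧ ∑ v, B v v = 1 ∧ ∑ v, ∑ w, B v w = t ∧
      (∀ B', Dual G B' → ∑ v, ∑ w, B' v w ≤ t * ∑ v, B' v v) ∧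
      PSD Y ∧ (∀ v, Y v v ≤ t - 1) ∧ (∀ v w, G.Adj v w → Y v w = -1) ∧
      IsLeast (thetaValues G) t := by
  classical
  obtain ⟨B, h1, h2, h3⟩ := exists_opt G
  obtain ⟨Y, hY, hYd, hYa⟩ := strong G _ h3
  simp only [if_true] at hYd
  have hYa' : ∀ v w, G.Adj v w → Y v w = -1 := by
    intro v w h
    rw [hYa v w h]
    exact if_neg h.ne
  refine ⟨_, B, Y, h1, h2, rfl, h3, hY, hYd, hYa', ?_⟩
  have hlow : ∀ s, Feas G s → ∑ v, ∑ w, B v w ≤ s := by
    intro s hs
    have := weak h1 hs
    rwa [h2, mul_one] at this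
  have hfeas : Feas G (∑ v, ∑ w, B v w) := by
    obtain ⟨n, C, hC⟩ := hY.gram
    refine ⟨Option (Fin n), inferInstance, fun o => o.elim 1 fun _ => 0,
      fun v o => o.elim 1 fun k => C k v, ?_, ?_, ?_, ?_⟩
    · rw [Fintype.sum_option]
      simp
    · intro v
      rw [Fintype.sum_option]
      simp
    · intro v
      rw [Fintype.sum_option]
      simp only [Option.elim]
      rw [← hC]
      linarith [hYd v]
    · intro v w h
      rw [Fintype.sum_option]
      simp only [Option.elim]
      rw [← hC, hYa' v w h]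
      norm_num
  obtain ⟨s', hs', hle⟩ := mem_of_feas hfeas
  have : s' = ∑ v, ∑ w, B v w := le_antisymm hle (hlow _ (feas_of_mem hs'))
  rw [← this]
  refine ⟨hs', fun s hs => ?_⟩
  rw [this]
  exact hlow _ (feas_of_mem hs)

lemma isLeast_thetaBar {V : Type} [Finite V] [Nonempty V] (G : SimpleGraph V) :
    IsLeast (thetaValues G) (thetaBar G) := by
  have := Fintype.ofFinite V
  obtain ⟨t, B, Y, _, _, _, _, _, _, _, h⟩ := exists_both G
  have : thetaBar G = t := h.csInf_eq
  rw [this]
  exact h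

lemma mono {V W : Type} [Finite V] [Nonempty V] [Finite W] [Nonempty W] {r : ℕ} (hr : 1 ≤ r)
    (G : SimpleGraph V) (H : SimpleGraph W) (h : thetaBar G ≤ thetaBar H) :
    thetaBar (genMyc r G) ≤ thetaBar (genMyc r H) := by
  have := Fintype.ofFinite V
  have := Fintype.ofFinite W
  obtain ⟨t, B, Y, hB, htr, hval, hopt, hY, hYd, hYa, hl⟩ := exists_both H
  obtain ⟨t', B', Y', hB', htr', hval', hopt', hY', hYd', hYa', hl'⟩ := exists_both G
  have e : thetaBar H = t := hl.csInf_eq
  have e' : thetaBar G = t' := hl'.csInf_eq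
  rw [e, e'] at h
  have h1 : Feas (genMyc r H) (thetaBar (genMyc r H)) := feas_of_mem (isLeast_thetaBar _).1
  have h2 : Feas (genMyc r G) (thetaBar (genMyc r H)) :=
    transfer G H hr hB htr hval hopt hY' (fun v => (hYd' v).trans (by linarith)) hYa' h1
  obtain ⟨s, hs, hle⟩ := mem_of_feas h2
  exact ((isLeast_thetaBar (genMyc r G)).2 hs).trans hle

/-- **Main theorem.** The minimum in the definition of `ϑ̄` is attained, and for every `r ≥ 1` the
number `ϑ̄(M_r(G))` is determined by `ϑ̄(G)`: there is a function `g_r : ℝ → ℝ` with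
`ϑ̄(M_r(G)) = g_r(ϑ̄(G))` for every finite nonempty graph `G`; moreover `ϑ̄(M_r(G))` is a monotone
function of `ϑ̄(G)`. -/
theorem result :
    (∀ (V : Type) [Finite V] [Nonempty V] (G : SimpleGraph V),
      IsLeast (thetaValues G) (thetaBar G)) ∧
    ∀ r : ℕ, 1 ≤ r →
      (∃ g : ℝ → ℝ, ∀ (V : Type) [Finite V] [Nonempty V] (G : SimpleGraph V),
        thetaBar (genMyc r G) = g (thetaBar G)) ∧
      ∀ (V W : Type) [Finite V] [Nonempty V] [Finite W] [Nonempty W]
        (G : SimpleGraph V) (H : SimpleGraph W),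
        thetaBar G ≤ thetaBar H → thetaBar (genMyc r G) ≤ thetaBar (genMyc r H) := by
  refine ⟨fun V _ _ G => isLeast_thetaBar G, fun r hr => ⟨?_, fun V W _ _ _ _ G H h => mono hr G H h⟩⟩
  classical
  refine ⟨fun t => sInf {s | ∃ (V : Type) (_ : Finite V) (_ : Nonempty V) (G : SimpleGraph V),
    thetaBar G = t ∧ thetaBar (genMyc r G) = s}, fun V _ _ G => ?_⟩
  have : {s | ∃ (V : Type) (_ : Finite V) (_ : Nonempty V) (H : SimpleGraph V),
      thetaBar H = thetaBar G ∧ thetaBar (genMyc r H) = s} = {thetaBar (genMyc r G)} := by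
    ext s
    simp only [Set.mem_ofPred_eq, Set.mem_singleton_iff]
    constructor
    · rintro ⟨W, _, _, H, h1, rfl⟩
      exact le_antisymm (mono hr H G h1.le) (mono hr G H h1.ge)
    · rintro rfl
      exact ⟨V, inferInstance, inferInstance, G, rfl, rfl⟩
  simp only [this, csInf_singleton]

end Pool.Agent.Results.MP_8a180b_co.DeterminedByTheta
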